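import Pool.Agent.W952.LP.Stm

/-!
# The dense sequence of the space is dense (LP-DENSE)
-/

set_option autoImplicit false

namespace Pool.Agent.W646.LP

open Pool.Agent.W952.LP Pool.Agent.W952.LP.Gd

lemma witness_bound (P : ℕ → ℕ → Prop) (b0 : ℕ) (h : ∀ b < b0, ∃ c, P b c) :
    ∃ s, ∀ b < b0, ∃ c < s, P b c := by
  induction b0 with
  | zero => exact ⟨0, fun b hb => absurd hb (Nat.not_lt_zero b)⟩
  | succ n ih =>
    obtain ⟨s, hs⟩ := ih fun b hb => h b (Nat.lt_succ_of_lt hb)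
    obtain ⟨c, hc⟩ := h n (Nat.lt_succ_self n)
    refine ⟨max s (c + 1), fun b hb => ?_⟩
    rcases Nat.lt_succ_iff_lt_or_eq.1 hb with h1 | h1
    · obtain ⟨c', hc', hP⟩ := hs b h1
      exact ⟨c', lt_of_lt_of_le hc' (le_max_left _ _), hP⟩
    · subst h1
      exact ⟨c, lt_of_lt_of_le (Nat.lt_succ_self c) (le_max_right _ _), hc⟩

lemma approx (G : Gd) (g : ℕ) (y : ℝ) (h : G.Reach g y) (δ : ℝ) (hδ : 0 < δ) :
    ∃ (b0 : ℕ) (y' : ℝ), G.Good g b0 ∧ 0 ≤ y' ∧ y' ≤ 1 - (1 / 2 : ℝ) ^ b0 ∧ |y - y'| < δ := by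
  obtain ⟨h0, h1, hc | ⟨b0, hb, hy⟩⟩ := h
  · obtain ⟨b0, hb0⟩ := exists_pow_lt_of_lt_one hδ (by norm_num : (1 / 2 : ℝ) < 1)
    have hp : (1 / 2 : ℝ) ^ b0 ≤ 1 := pow_le_one₀ (by norm_num) (by norm_num)
    have hp0 : 0 < (1 / 2 : ℝ) ^ b0 := by positivity
    refine ⟨b0, min y (1 - (1 / 2 : ℝ) ^ b0), fun b _ => hc b, ?_, min_le_right _ _, ?_⟩
    · exact le_min h0 (by linarith)
    · rcases le_total y (1 - (1 / 2 : ℝ) ^ b0) with h2 | h2
      · rw [min_eq_left h2, sub_self, abs_zero]; exact hδ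
      · rw [min_eq_right h2, abs_of_nonneg (by linarith)]
        linarith
  · exact ⟨b0, y, hb, h0, hy, by rw [sub_self, abs_zero]; exact hδ⟩

lemma floor_approx (x : ℝ) (hx : 0 ≤ x) (l : ℕ) :
    ((⌊x * 2 ^ l⌋₊ : ℕ) : ℝ) / 2 ^ l ≤ x ∧ x - ((⌊x * 2 ^ l⌋₊ : ℕ) : ℝ) / 2 ^ l < (1 / 2 : ℝ) ^ l := by
  have hp : (0 : ℝ) < 2 ^ l := by positivity
  have h1 : ((⌊x * 2 ^ l⌋₊ : ℕ) : ℝ) ≤ x * 2 ^ l := Nat.floor_le (by positivity)
  have h2 : x * 2 ^ l < ((⌊x * 2 ^ l⌋₊ : ℕ) : ℝ) + 1 := Nat.lt_floor_add_one _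
  constructor
  · rw [div_le_iff₀ hp]; exact h1
  · rw [sub_lt_iff_lt_add, one_div, inv_pow, ← one_div, ← add_div, lt_div_iff₀ hp]
    linarith

theorem dense : S_dense := by
  intro G p hp ε hε
  rcases hp with ⟨x, hx0, hx1, rfl⟩ | ⟨g, i, y, hi, hr, rfl⟩
  · obtain ⟨l, hl⟩ := exists_pow_lt_of_lt_one hε (by norm_num : (1 / 2 : ℝ) < 1)
    obtain ⟨m, hm⟩ : ∃ m : ℕ, m = ⌊x * 2 ^ l⌋₊ := ⟨_, rfl⟩
    have hf := floor_approx x hx0 l
    rw [← hm] at hf
    have hml : m ≤ 2 ^ l := by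
      rw [hm]
      apply Nat.floor_le_of_le
      push_cast
      have : (0 : ℝ) < 2 ^ l := by positivity
      nlinarith
    refine ⟨2 * Nat.pair m l, ?_⟩
    have hc : W952.LP.sq G (2 * Nat.pair m l) = (m, 0, 0, l) := by
      have e1 : 2 * Nat.pair m l % 2 = 0 := by omega
      have e2 : 2 * Nat.pair m l / 2 = Nat.pair m l := by omega
      unfold W952.LP.sq cd
      rw [if_pos e1, e2, Nat.unpair_pair]
      simp only
      rw [if_pos hml]
    rw [hc]
    unfold pnt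
    simp only [Nat.cast_zero, zero_div]
    rw [Prod.dist_eq]
    simp only [dist_self]
    rw [max_eq_left dist_nonneg, Real.dist_eq, abs_of_nonneg (by linarith [hf.1])]
    linarith [hf.2]
  · have hδ : 0 < ε / (1 + i) := by positivity
    obtain ⟨b0, y', hgood, hy0, hy1, hyy⟩ := approx G g y hr (ε / (1 + i) / 2) (by positivity)
    obtain ⟨l, hl⟩ := exists_pow_lt_of_lt_one (show 0 < ε / (1 + i) / 2 by positivity)
      (by norm_num : (1 / 2 : ℝ) < 1)
    obtain ⟨m, hm⟩ : ∃ m : ℕ, m = ⌊y' * 2 ^ l⌋₊ := ⟨_, rfl⟩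
    have hf := floor_approx y' hy0 l
    rw [← hm] at hf
    have hpl : (0 : ℝ) < 2 ^ l := by positivity
    have hpb : (0 : ℝ) < 2 ^ b0 := by positivity
    have hle : m * 2 ^ b0 + 2 ^ l ≤ 2 ^ (l + b0) := by
      have h1 : (m : ℝ) / 2 ^ l ≤ 1 - (1 / 2 : ℝ) ^ b0 := hf.1.trans hy1
      have h2 : (m : ℝ) * 2 ^ b0 + 2 ^ l ≤ 2 ^ (l + b0) := by
        rw [div_le_iff₀ hpl] at h1
        have h3 : (m : ℝ) * 2 ^ b0 ≤ (1 - (1 / 2 : ℝ) ^ b0) * 2 ^ l * 2 ^ b0 :=
          mul_le_mul_of_nonneg_right h1 hpb.le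
        have h4 : (1 - (1 / 2 : ℝ) ^ b0) * 2 ^ l * 2 ^ b0 = 2 ^ (l + b0) - 2 ^ l := by
          rw [pow_add, one_div, inv_pow]
          field_simp
        linarith
      exact_mod_cast h2
    have hml : m ≤ 2 ^ l := by
      have h1 : (m : ℝ) / 2 ^ l ≤ 1 := hf.1.trans (hy1.trans (by
        have : 0 < (1 / 2 : ℝ) ^ b0 := by positivity
        linarith))
      rw [div_le_iff₀ hpl, one_mul] at h1
      exact_mod_cast h1
    obtain ⟨s, hs⟩ := witness_bound (fun b c => G.T g b c = true) b0 hgood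
    obtain ⟨q, hq⟩ : ∃ q, q = Nat.pair g (Nat.pair i (Nat.pair b0 (Nat.pair m (Nat.pair l s)))) :=
      ⟨_, rfl⟩
    have ug' : ug q = g := by rw [hq]; simp [ug]
    have ui' : ui q = i := by rw [hq]; simp [ui]
    have ub' : ub q = b0 := by rw [hq]; simp [ub]
    have um' : um q = m := by rw [hq]; simp [um]
    have ul' : ul q = l := by rw [hq]; simp [ul]
    have us' : us q = s := by rw [hq]; simp [us]
    have hflag : flag G q = true := by
      have hF : W952.LP.Flag G q := by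
        unfold W952.LP.Flag
        rw [ug', ui', ub', um', ul', us']
        exact ⟨hi, hle, hs⟩
      unfold flag
      exact @decide_eq_true _ (Classical.propDecidable _) hF
    refine ⟨2 * q + 1, ?_⟩
    have hc : W952.LP.sq G (2 * q + 1) = (2 ^ (G.nn g + 2 * l), m * 2 ^ l, i * (m * (2 ^ l - m)),
        g + G.nn g + 2 * l) := by
      have e1 : ¬ (2 * q + 1) % 2 = 0 := by omega
      have e2 : (2 * q + 1) / 2 = q := by omega
      unfold W952.LP.sq cd
      rw [if_neg e1, e2, hflag, if_pos rfl, ug', ui', um', ul']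
    rw [hc]
    unfold pnt
    have hy1' : y' ≤ 1 := hy1.trans (by
      have : 0 < (1 / 2 : ℝ) ^ b0 := by positivity
      linarith)
    obtain ⟨z, hz⟩ : ∃ z : ℝ, z = (m : ℝ) / 2 ^ l := ⟨_, rfl⟩
    rw [← hz] at hf
    have hz0 : 0 ≤ z := by rw [hz]; exact div_nonneg (Nat.cast_nonneg m) hpl.le
    obtain ⟨hf1, hf2⟩ := hf
    clear hc hflag ug' ui' ub' um' ul' us' hq hs
    have hz1 : z ≤ 1 := by linarith
    have hyz : |y - z| < ε / (1 + i) := by
      have h1 : |y - z| ≤ |y - y'| + |y' - z| := abs_sub_le y y' z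
      have h2 : |y' - z| < ε / (1 + i) / 2 := by
        rw [abs_of_nonneg (by linarith)]
        linarith
      linarith
    have c1 : (((2 ^ (G.nn g + 2 * l) : ℕ)) : ℝ) / 2 ^ (g + G.nn g + 2 * l) = (1 / 2 : ℝ) ^ g := by
      push_cast
      rw [one_div, inv_pow, show g + G.nn g + 2 * l = g + (G.nn g + 2 * l) by ring, pow_add]
      field_simp
      ring
    have c2 : (((m * 2 ^ l : ℕ)) : ℝ) / 2 ^ (g + G.nn g + 2 * l) = G.eps g * z := by
      push_cast
      rw [hz]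
      unfold Gd.eps
      rw [one_div, inv_pow, pow_add, two_mul, pow_add]
      field_simp
      ring
    have c3 : (((i * (m * (2 ^ l - m)) : ℕ)) : ℝ) / 2 ^ (g + G.nn g + 2 * l) =
        G.eps g * (i * (z * (1 - z))) := by
      push_cast [Nat.cast_sub hml]
      rw [hz]
      unfold Gd.eps
      rw [one_div, inv_pow, pow_add, two_mul, pow_add]
      field_simp
      ring
    simp only
    rw [c1, c2, c3]
    have he0 : 0 < G.eps g := by unfold Gd.eps; positivity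
    have he1 : G.eps g ≤ 1 := pow_le_one₀ (by norm_num) (by norm_num)
    have hi0 : (0 : ℝ) ≤ i := Nat.cast_nonneg i
    have hε' : (1 + (i : ℝ)) * |y - z| < ε := by
      rw [lt_div_iff₀ (by positivity)] at hyz
      linarith
    have habs := abs_nonneg (y - z)
    unfold Gd.pt
    rw [Prod.dist_eq, Prod.dist_eq]
    simp only [dist_self]
    refine max_lt hε (max_lt ?_ ?_)
    · rw [Real.dist_eq, ← mul_sub, abs_mul, abs_of_pos he0]
      have : G.eps g * |y - z| ≤ 1 * |y - z| := mul_le_mul_of_nonneg_right he1 habs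
      have h3 : 0 ≤ (i : ℝ) * |y - z| := mul_nonneg hi0 habs
      linarith
    · rw [Real.dist_eq, ← mul_sub, ← mul_sub, abs_mul, abs_mul, abs_of_pos he0,
        abs_of_nonneg hi0]
      have e3 : y * (1 - y) - z * (1 - z) = (y - z) * (1 - y - z) := by ring
      have h4 : |1 - y - z| ≤ 1 := by
        rw [abs_le]
        constructor <;> linarith [hr.1, hr.2.1]
      have h5 : |y * (1 - y) - z * (1 - z)| ≤ |y - z| := by
        rw [e3, abs_mul]
        calc |y - z| * |1 - y - z| ≤ |y - z| * 1 := mul_le_mul_of_nonneg_left h4 habs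
          _ = |y - z| := mul_one _
      have h6 : (i : ℝ) * |y * (1 - y) - z * (1 - z)| ≤ i * |y - z| :=
        mul_le_mul_of_nonneg_left h5 hi0
      have h7 : 0 ≤ (i : ℝ) * |y * (1 - y) - z * (1 - z)| := mul_nonneg hi0 (abs_nonneg _)
      have h8 : G.eps g * ((i : ℝ) * |y * (1 - y) - z * (1 - z)|) ≤
          1 * ((i : ℝ) * |y * (1 - y) - z * (1 - z)|) := mul_le_mul_of_nonneg_right he1 h7
      linarith

end Pool.Agent.W646.LP
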